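import Pool.Agent.Helper65.KH.Goals

/-!
# Project KH, packet SC: product of polynomials
-/

set_option autoImplicit false

open MvPolynomial

namespace Pool.Agent.Helper80.KH.SC

open Pool.Agent.Helper65.KH

theorem t (h : S_SC1) : S_SC := by
  classical
  intro ι _ _ κ _ _ Φ _ R M d t0 h0
  choose P hP0 hP using fun φ => h ι κ (R φ) M (d φ) (t0 φ) (h0 φ)
  have hne : (∏ φ, P φ) ≠ 0 := by
    rw [Finset.prod_ne_zero_iff]
    intro φ _ hz
    apply hP0 φ
    rw [hz, map_zero]
  have hex : ∃ t : κ → ℚ, eval t (∏ φ, P φ) ≠ 0 := by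
    by_contra hcon
    push Not at hcon
    apply hne
    apply MvPolynomial.funext
    intro x
    rw [hcon x, map_zero]
  obtain ⟨t, ht⟩ := hex
  refine ⟨t, fun φ => hP φ t ?_⟩
  rw [map_prod, Finset.prod_ne_zero_iff] at ht
  exact ht φ (Finset.mem_univ φ)

end Pool.Agent.Helper80.KH.SC
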